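import Mathlib
import Pool.Agent.Lib.MP_32dfd1_ag.Cyc.Theory
import Pool.Agent.Lib.MP_32dfd1_ag.Cyc.One

set_option autoImplicit false

/-!
# Q1 for varieties of abelian type is equivalent to `F^2 = 0` for abelian varieties

Question Q1 only speaks about varieties `X` with `H^(2m-1)(X, ℚ) = 0`, while the conjecture of
Bloch and Beilinson over the algebraic numbers says that for all `X` the homologically trivial
cycles of codimension `m` are controlled by `H^(2m-1)(X)` (the filtration has `F^2 = 0`).  Here
both are shown to be equivalent on the class of varieties of abelian type (those whose Chow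
motive is a direct summand of a sum of Tate twists of motives of abelian varieties: products of
curves, Kummer varieties, Fermat hypersurfaces, ...), and equivalent to a statement about
abelian varieties alone: `[n]^*` is multiplication by `n ^ (2m - 1)` on the homologically trivial
cycles of codimension `m`.

* `Q1 ⟹ PureWeight`: the group `G` of even sign changes acts on `A^N`, `N` odd, without nonzero
  invariants in `H^j(A^N)` for odd `j < N`; the Godeaux-Serre construction gives a smooth
  projective `Y`, the quotient of `A^N × B`, with `H^(2m-1)(Y) = 0` for `N = 2m + 1`, and Q1 for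
  `Y` gives `∑_ε [ε_1 a_1 + ... + ε_N a_N]^* z = 0`, the sum over `ε ∈ G`.  So `n ↦ [n]^* z` is odd
  and killed by `2m` central differences; `[2]^*` has eigenvalues among `1, 2, ..., 2^(2m-1)`.
  The same argument for direct images gives the eigenvalues `1, 2, ..., 2^(2p+1)` of `[2]_*`,
  `p = g - m`, and `[2]_* [2]^* = 2^(2g)` leaves only `2^(2m-1)` for `[2]^*`.
* `PureWeight ⟹ OneStep`: by parity, homologically trivial correspondences between abelian
  varieties kill homologically trivial cycles, and the polynomial in `[2]^*` which is the
  projector of `H^*(A)` onto `H^(2m-1)(A)` is the identity on homologically trivial cycles of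
  codimension `m`; this is transported to varieties of abelian type.
* `OneStep ⟹ Q1`: take the diagonal.
-/

namespace Pool.Agent.Results.MP_32dfd1_ag.AbelianTypeEquivalence

open CategoryTheory Pool.Agent.Lib.MP_32dfd1_ag.Cyc

universe u v w

theorem result {V : Type u} [Category.{v} V] [CartesianMonoidalCategory V] [BraidedCategory V]
    (T : CycleData.{u, v, w} V) [T.Textbook] (hG : T.GodeauxSerre) :
    [T.Q1, T.PureWeight, T.OneStep].TFAE ∧ (T.Q1 → T.ProductsVanish ∧ T.AlbaneseTrivial) := by
  refine ⟨?_, fun h => ⟨productsVanish_of_oneStep (oneStep_of_pureWeight (pureWeight_of_Q1 hG h)),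
    albaneseTrivial_of_Q1 hG h⟩⟩
  tfae_have 1 → 2 := pureWeight_of_Q1 hG
  tfae_have 2 → 3 := oneStep_of_pureWeight
  tfae_have 3 → 1 := q1_of_oneStep
  tfae_finish

end Pool.Agent.Results.MP_32dfd1_ag.AbelianTypeEquivalence
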