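import Mathlib
import Pool.Agent.Lib.MP_32dfd1_ag.Par.Main
import Pool.Agent.Lib.MP_32dfd1_ag.Sur.Defs
import Pool.Agent.Lib.MP_32dfd1_ag.Sur.Main

set_option autoImplicit false

/-!
# Q1 and the motives generated by surfaces

* The Chow motive of a surface `S` is a direct summand of `h(S') ⊕ ⨁ h(A)(i)` with a surface `S'`
  without odd cohomology and an abelian variety `A`.
* Q1 in codimension larger than half the dimension is equivalent to the one-step form of the
  conjectures of Bloch and Beilinson for the tensor category generated by all surfaces and all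
  varieties with a parity involution (abelian varieties, varieties without odd cohomology, double
  covers of projective spaces of odd dimension).

Proof of the first statement: let `W ⊆ S^n` be a general fibre of the sum map `S^n ⟶ A = Alb(S)`,
`p_i : W ⟶ S` the coordinates, `L = ∑ p_i^* l`, `e = dim W - 2`.  Then
`∑_i (p_i, p_1)_* (L^e) = N Δ_S + (n-1) Γ`, `Γ = (p_1, p_2)_* (L^e)`.  The left-hand side factors
through the quotient of `W` by the symmetric group, even through a surface `S'` in
`(W × B) / S_n`, which has no odd cohomology.  On the other hand `W` is the fibre product of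
`S × S ⟶ A` and `S^(n-2) ⟶ A`, so `Γ` is a sum of classes `l_1^i l_2^j (α × α)^* M_(ij)`, that is, it
factors through `A`.

Second statement: products of varieties of parity type are of parity type, and the parity operator of
such a variety acts as `-1` on homologically trivial cycles if Q1 holds.
-/

namespace Pool.Agent.Results.MP_32dfd1_ag.SurfaceMotives

open CategoryTheory Pool.Agent.Lib.MP_32dfd1_ag.Cyc Pool.Agent.Lib.MP_32dfd1_ag.Par
  Pool.Agent.Lib.MP_32dfd1_ag.Sur

universe u v w

theorem result {V : Type u} [Category.{v} V] [CartesianMonoidalCategory V]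
    (T : CycleData.{u, v, w} V) [T.Textbook] (hC : ∀ (X : V) (x y : T.CH.R X), x * y = y * x)
    (hH : HardLefschetz T) (hL : LefschetzBertini T) (hG : GodeauxSerre T) (hS : SumFibres T) :
    (∀ S : V, T.dim S = 2 → ParityType T S) ∧ (Q1 T ↔ OneStep T) := by
  refine ⟨fun S hd => (hS S hd).some.parityType hC, ?_⟩
  have h := tfae hH hL hG
  exact ⟨fun hQ => oneStep hC hS ((h.out 0 5).mp hQ),
    fun hO => (h.out 2 0).mp (evenCase_of_oneStep hO)⟩

end Pool.Agent.Results.MP_32dfd1_ag.SurfaceMotives
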