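import Mathlib
import Pool.Agent.Lib.MP_32dfd1_ag.Zero.Defs
import Pool.Agent.Lib.MP_32dfd1_ag.Zero.Main

set_option autoImplicit false

/-!
# Q1 for zero-cycles: simply connected surfaces decide everything

Let `k ⊆ ℂ` be algebraically closed, for instance `k = ℚ̄`.  The following are equivalent:

* Q1 for `m = 2` and simply connected surfaces `S`: `CH_0(S) ⊗ ℚ = ℚ`;
* Q1 for zero-cycles on all smooth projective varieties `X` with `H^(2m-1)(X) = 0`, `m = dim X`;
* the conjecture of Beilinson for zero-cycles: for *every* smooth projective variety `X` the kernel of
  the Albanese map of `X` is torsion, so `CH_0(X) ⊗ ℚ` is the product of `ℚ` and `Alb(X)(k) ⊗ ℚ`.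

So Q1, which only speaks about varieties with `H^(2m-1)(X) = 0`, implies for zero-cycles the full
prediction of Bloch and Beilinson for all varieties.

Idea of the proof.  Let `z` be in the Albanese kernel of `X`.  By Lefschetz and Bertini one may assume
that `X = S` is a surface and that `z` is supported on a smooth member `C_0` of a pencil of ample
curves `C_t ⊆ S`; so `z` is given by a point of the abelian variety `K_0`, where
`K_t = ker(Pic^0(C_t) → Alb(S))`.  The `K_t` form a family over an open subset of the projective line.
Let `Y` be a smooth compactification of its total space.  The monodromy representation on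
`H^1(K_t) = H^1(C_t)/H^1(S)` has no invariants (theorem on invariant cycles and semisimplicity), so
`H^1(Y) = 0`; the fundamental group of `Y` is commutative, hence finite, and the universal covering
`X'` of `Y` is projective.  By Lefschetz zero-cycles on `X'` live on simply connected surfaces, hence
zero-cycles of degree zero on `Y` are torsion, and so is their image `z` under the correspondence
from `Y` to `S` defined by the tautological family of divisor classes.
-/

namespace Pool.Agent.Results.MP_32dfd1_ag.ZeroCyclesReduction

open CategoryTheory Pool.Agent.Lib.MP_f4876d_ag.Field Pool.Agent.Lib.MP_32dfd1_ag.Zero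

universe u v w

theorem result {V : Type u} [Category.{v} V] [Preadditive V] [Linear ℚ V]
    (T : Chow V) (H : Weil ℚ T) (G : Geometry.{u, v, w} H) :
    List.TFAE [Q1SimplyConnectedSurfaces G, Q1 H, AlbaneseKernelsTorsion H] := by
  tfae_have 1 → 3 := main
  tfae_have 3 → 2 := by
    intro h X hX z hz hz0
    have h1 := gr_dual hX
    have e : 2 * (T.dim X : ℤ) - (2 * (T.dim X : ℤ) - 1) = 1 := by ring
    rw [e] at h1
    exact h X z hz (G.alb X h1 z hz hz0)
  tfae_have 2 → 1 := fun h S hS _ z hz hz0 => h S (gr_dual (G.sc_gr S hS)) z hz hz0
  tfae_finish

end Pool.Agent.Results.MP_32dfd1_ag.ZeroCyclesReduction
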